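import Pool.Agent.HGFC.Defs
import Pool.Agent.TInc.EmbB
import Pool.Agent.TInc.OrdThy

/-!
# Values of the points of a curve and of the points of the hypersurface

`K` is a field with `HasRes` and `HasBelow` (`Om k`, or the function field of a curve). `Ovr v s c`: the
point `c` of the curve is the value of the point `s` over `K` at the place `v` of `K`; it is `vb v s`
(`ovr_vb`, `vb_eq`). If sections of line bundles at the point `s` are multiplied by suitable powers of one
element `l ≠ 0` (`exists_mulc`), their values are the sections at the point `vb v s`. So the values of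
a point of the hypersurface are a point of the hypersurface (`onY_vlo`).
-/

set_option autoImplicit false
set_option linter.unusedSectionVars false

noncomputable section

namespace Pool.Agent.HGFC

open Pool.Agent.ZCyc Pool.Agent.Dess Pool.Agent.GT Pool.Agent.TInc Pool.Agent.HGF
open Pool.Agent.VFP (Om tt)
open Pool.Agent.HYG (vl)
open Pool.Agent.EFC (unif genus sections)
open scoped Classical

/-- below every place of `K` there is a place of every function field of a curve in `K` -/
class HasBelow (k K : Type) [Field k] [Field K] [Algebra k K] : Prop where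
  below : ∀ {L : Type} [Field L] [Algebra k L], IsCurve k L → ∀ (v : Place k K)
    (σ : L →ₐ[k] K), ∃ c : Place k L, v.ring.comap (σ : L →+* K) = c.ring

section base

variable {k : Type} [Field k]

/-- the point `c` is the value of the point `s` over `K` at the place `v` -/
def Ovr {L : Type} [Field L] [Algebra k L] {K : Type} [Field K] [Algebra k K] (v : Place k K)
    (s : Bp k L K) (c : Place k L) : Prop :=
  s.elim (fun σ : L →ₐ[k] K => v.ring.comap (σ : L →+* K) = c.ring) fun c' => c' = c

/-- the image of a point under a homomorphism of the fields -/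
def bmap {L : Type} [Field L] [Algebra k L] {K K' : Type} [Field K] [Algebra k K] [Field K']
    [Algebra k K'] (φ : K →ₐ[k] K') (s : Bp k L K) : Bp k L K' :=
  s.map (fun σ => φ.comp σ) id

instance [IsAlgClosed k] [CharZero k] : HasBelow k (Om k) :=
  ⟨fun hL v σ => exists_below hL v σ⟩

theorem hasBelow_of_isCurve [IsAlgClosed k] [CharZero k] {K : Type} [Field K] [Algebra k K]
    (hK : IsCurve k K) : HasBelow k K := by
  refine ⟨fun {L} _ _ hL v σ => ?_⟩
  obtain ⟨φ, hφ, -⟩ := id hK
  obtain ⟨τ, -⟩ : ∃ τ : K →ₐ[k] Om k, τ φ = tt k := by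
    obtain ⟨hfin, hcard⟩ := card_emb hK hφ (VFP.tt_transc (k := k))
    have := fin_adjoin hK hφ
    have h1 : ({σ : K →ₐ[k] Om k | σ φ = tt k}).Nonempty := by
      rw [← Set.ncard_pos hfin, hcard]
      exact Module.finrank_pos
    exact h1
  obtain ⟨V, hV⟩ := exists_above hK v τ
  obtain ⟨c, hc⟩ := exists_below hL V (τ.comp σ)
  refine ⟨c, ?_⟩
  rw [← hV, ← hc]
  rfl

variable {L : Type} [Field L] [Algebra k L]

theorem Ovr.unique {K : Type} [Field K] [Algebra k K] {v : Place k K} {s : Bp k L K}
    {c c' : Place k L} (h : Ovr v s c) (h' : Ovr v s c') : c = c' := by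
  cases s with
  | inl σ =>
    have h1 : v.ring.comap (σ : L →+* K) = c.ring := h
    have h2 : v.ring.comap (σ : L →+* K) = c'.ring := h'
    exact Place.ext (h1.symm.trans h2)
  | inr d =>
    have h1 : d = c := h
    have h2 : d = c' := h'
    exact h1.symm.trans h2

theorem ovr_inr {K : Type} [Field K] [Algebra k K] {v : Place k K} {c c' : Place k L} :
    Ovr v (Sum.inr c : Bp k L K) c' ↔ c = c' := Iff.rfl

variable [hL : Fact (IsCurve k L)]

theorem ovr_vb {K : Type} [Field K] [Algebra k K] [HasBelow k K] (v : Place k K)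
    (s : Bp k L K) : Ovr v s (vb v s) := by
  cases s with
  | inl σ =>
    obtain ⟨c, hc⟩ := HasBelow.below hL.out v σ
    have h1 : ∃ c : Place k L, c.ring = v.ring.comap σ.toRingHom := ⟨c, hc.symm⟩
    exact (Classical.epsilon_spec h1).symm
  | inr c => exact rfl

theorem vb_eq {K : Type} [Field K] [Algebra k K] [HasBelow k K] {v : Place k K}
    {s : Bp k L K} {c : Place k L} (h : Ovr v s c) : vb v s = c := (ovr_vb v s).unique h

theorem vb_inr {K : Type} [Field K] [Algebra k K] (v : Place k K) (c : Place k L) :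
    vb v (Sum.inr c : Bp k L K) = c := rfl

/-- places above each other -/
theorem ovr_bmap {K K' : Type} [Field K] [Algebra k K] [Field K'] [Algebra k K']
    {φ : K →ₐ[k] K'} {V : Place k K'} {v : Place k K}
    (h : V.ring.comap (φ : K →+* K') = v.ring) {s : Bp k L K} {c : Place k L} :
    Ovr V (bmap φ s) c ↔ Ovr v s c := by
  cases s with
  | inl σ =>
    show V.ring.comap ((φ.comp σ : L →ₐ[k] K') : L →+* K') = c.ring ↔
      v.ring.comap (σ : L →+* K) = c.ring
    rw [← h]
    exact Iff.rfl
  | inr d => exact Iff.rfl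

theorem vb_bmap {K K' : Type} [Field K] [Algebra k K] [Field K'] [Algebra k K']
    [HasBelow k K] [HasBelow k K'] {φ : K →ₐ[k] K'} {V : Place k K'} {v : Place k K}
    (h : V.ring.comap (φ : K →+* K') = v.ring) (s : Bp k L K) : vb V (bmap φ s) = vb v s :=
  vb_eq ((ovr_bmap h).2 (ovr_vb v s))

end base

section ev

variable {k : Type} [Field k] {L : Type} [Field L] [Algebra k L] {K : Type} [Field K]
  [Algebra k K]

theorem ev_bmap {K' : Type} [Field K'] [Algebra k K'] (φ : K →ₐ[k] K') (f : L)
    (s : Bp k L K) : ev f (bmap φ s) = φ (ev f s) := by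
  cases s with
  | inl σ => rfl
  | inr c => exact (φ.commutes _).symm

theorem sv_bmap {K' : Type} [Field K'] [Algebra k K'] (φ : K →ₐ[k] K') (E : Place k L →₀ ℤ)
    (f : L) (s : Bp k L K) : sv E f (bmap φ s) = φ (sv E f s) := by
  cases s with
  | inl σ => rfl
  | inr c => exact (φ.commutes _).symm

theorem ev_inr (f : L) (c : Place k L) :
    ev f (Sum.inr c : Bp k L K) = algebraMap k K (val c f) := rfl

theorem ev_inr' (f : L) (c : Place k L) : ev f (Sum.inr c : Bp k L k) = val c f := rfl

theorem sv_inr (E : Place k L →₀ ℤ) (f : L) (c : Place k L) :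
    sv E f (Sum.inr c : Bp k L K) = algebraMap k K (sv E f (Sum.inr c : Bp k L k)) := rfl

/-- outside of the support of the divisor the section is the function -/
theorem sv_eq_ev {E : Place k L →₀ ℤ} {s : Bp k L K} (h : ∀ c, s = Sum.inr c → E c = 0)
    (f : L) : sv E f s = ev f s := by
  cases s with
  | inl σ => rfl
  | inr c =>
    show algebraMap k K (val c (f * unif c ^ E c)) = algebraMap k K (val c f)
    rw [h c rfl, zpow_zero, mul_one]

variable [IsAlgClosed k] [CharZero k]

/-- the value of a function at a point -/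
theorem ev_at (hL : IsCurve k L) {v : Place k K} {s : Bp k L K} {c : Place k L}
    (h : Ovr v s c) {f : L} (hf : f ∈ c.ring) : v.At (ev f s) (val c f) := by
  cases s with
  | inl σ =>
    have h1 : v.ring.comap (σ : L →+* K) = c.ring := h
    have h2 := TInc.at_val hL hf
    unfold Place.At at h2 ⊢
    rw [Place.vanishes_iff_or] at h2 ⊢
    have h3 : ∀ g : L, g ∈ c.ring ↔ σ g ∈ v.ring := fun g => by
      rw [← h1]
      exact ValuationSubring.mem_comap
    rcases h2 with h2 | h2
    · left
      have := congrArg σ h2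
      rw [map_sub, AlgHom.commutes, map_zero] at this
      exact this
    · right
      rw [h3, map_inv₀, map_sub, AlgHom.commutes] at h2
      exact h2
  | inr c' =>
    have h1 : c' = c := h
    subst h1
    exact Place.at_const _

/-- the sections are multiplied by the powers of one element -/
theorem exists_mulc (hL : IsCurve k L) {v : Place k K} {s : Bp k L K} {c : Place k L}
    (h : Ovr v s c) : ∃ l : K, l ≠ 0 ∧ ∀ (E : Place k L →₀ ℤ) (f : L), f ∈ sections E →
      v.At (l ^ E c * sv E f s) (sv E f (Sum.inr c : Bp k L k)) := by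
  cases s with
  | inl σ =>
    refine ⟨σ (unif c), (_root_.map_ne_zero _).2 (EFC.unif_ne hL c), fun E f hf => ?_⟩
    have h1 : v.At (ev (f * unif c ^ E c) (Sum.inl σ : Bp k L K)) (val c (f * unif c ^ E c)) :=
      ev_at hL h (hf c)
    have h2 : ev (f * unif c ^ E c) (Sum.inl σ : Bp k L K) = σ (unif c) ^ E c * σ f := by
      show σ (f * unif c ^ E c) = _
      rw [map_mul, map_zpow₀, mul_comm]
    rw [h2] at h1
    exact h1
  | inr c' =>
    have h1 : c' = c := h
    subst h1
    refine ⟨1, one_ne_zero, fun E f _ => ?_⟩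
    rw [one_zpow, one_mul]
    exact Place.at_const _

end ev

section units

variable {k : Type} [Field k] [IsAlgClosed k] [CharZero k] {L : Type} [Field L] [Algebra k L]

/-- a unit has a value different from zero -/
theorem val_unit (hL : IsCurve k L) {c : Place k L} {f : L} (hf : f ≠ 0) (h : ord c f = 0) :
    c.At f (val c f) ∧ val c f ≠ 0 := by
  obtain ⟨h1, h2⟩ := (ord_eq_zero_iff hL hf).1 h
  refine ⟨TInc.at_val hL h1, fun h3 => ?_⟩
  have h4 := TInc.at_val hL h1
  rw [h3, Place.at_zero_iff, Place.vanishes_iff_or] at h4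
  rcases h4 with h4 | h4
  · exact hf h4
  · exact h4 h2

theorem mem_of_ord (hL : IsCurve k L) {c : Place k L} {f : L} (hf : f ≠ 0) (h : ord c f = 0) :
    f ∈ c.ring := ((ord_eq_zero_iff hL hf).1 h).1

end units

/-! ### The hypersurface -/

section hyp

variable {k : Type} [Field k] {L : Type} [Field L] [Algebra k L] {m : ℕ} {F : Fam k L m}
  {K : Type} [Field K] [Algebra k K]

/-- the values of the functions are different from zero -/
structure Un (F : Fam k L m) (s : Bp k L K) : Prop where
  B : ∀ i, ev (F.B i) s ≠ 0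
  C : ∀ i, ev (F.C i) s ≠ 0
  A : ev F.A s ≠ 0

theorem Base.un [IsAlgClosed k] [CharZero k] (hL : IsCurve k L) (hF : F.Adm) {s : Bp k L K}
    (h : Base F s) : Un F s := by
  cases s with
  | inl σ =>
    exact ⟨fun i => (_root_.map_ne_zero _).2 (hF.B0 i), fun i => (_root_.map_ne_zero _).2 (hF.C0 i),
      (_root_.map_ne_zero _).2 hF.A0⟩
  | inr c =>
    have h1 := h c rfl
    exact ⟨fun i => (_root_.map_ne_zero _).2 (val_unit hL (hF.B0 i) (h1.B i)).2,
      fun i => (_root_.map_ne_zero _).2 (val_unit hL (hF.C0 i) (h1.C i)).2,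
      (_root_.map_ne_zero _).2 (val_unit hL hF.A0 h1.A).2⟩

theorem base_inl (σ : L →ₐ[k] K) : Base F (Sum.inl σ : Bp k L K) := fun c h => by
  cases h

theorem base_inr {c : Place k L} : Base F (Sum.inr c : Bp k L K) ↔ Bas F c :=
  ⟨fun h => h c rfl, fun h c' h' => by
    obtain rfl := Sum.inr_injective h'
    exact h⟩

/-- a point with a good value is good -/
theorem Bas.base {v : Place k K} {s : Bp k L K} {c : Place k L} (h : Bas F c)
    (hs : Ovr v s c) : Base F s := by
  cases s with
  | inl σ => exact base_inl σ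
  | inr c' =>
    have h1 : c' = c := hs
    subst h1
    exact base_inr.2 h

theorem Base.S {s : Bp k L K} (h : Base F s) (c : Place k L) (hc : s = Sum.inr c) :
    F.S c = 0 := by
  unfold Fam.S
  rw [Finsupp.finsetSum_apply]
  exact Finset.sum_eq_zero fun i _ => (h c hc).E i

/-- the equation for finite coordinates and a good point of the curve -/
theorem onY_some {s : Bp k L K} (hs : Base F s) (w : Fin m → K) :
    OnY F s (fun i => some (w i)) ↔
      ∏ i, (ev (F.B i) s - ev (F.C i) s * w i ^ F.M i) = ev F.A s := by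
  unfold OnY
  rw [sv_eq_ev (fun c hc => hs.S c hc)]
  have h1 : ∀ i, sv (F.E i) (F.B i) s * snd (some (w i)) ^ F.M i -
      sv (F.E i) (F.C i) s * fst (some (w i)) ^ F.M i =
      ev (F.B i) s - ev (F.C i) s * w i ^ F.M i := by
    intro i
    rw [sv_eq_ev (fun c hc => (hs c hc).E i), sv_eq_ev (fun c hc => (hs c hc).E i), snd_some,
      fst_some, one_pow, mul_one]
  rw [Finset.prod_congr rfl fun i _ => h1 i]
  simp only [snd_some, one_pow, Finset.prod_const_one, mul_one]

theorem onY_map {K' : Type} [Field K'] [Algebra k K'] (φ : K →ₐ[k] K') (s : Bp k L K)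
    (u : Fin m → Option K) : OnY F (bmap φ s) (fun i => (u i).map φ) ↔ OnY F s u := by
  unfold OnY
  simp only [sv_bmap, fst_map, snd_map]
  rw [← (φ : K →+* K').injective.eq_iff]
  simp only [map_prod, map_sub, map_mul, map_pow, RingHom.coe_coe]

/-- constant points -/
theorem onY_const (c : Place k L) (u : Fin m → Option k) :
    OnY F (Sum.inr c : Bp k L K) (fun i => (u i).map (algebraMap k K)) ↔
      OnY F (Sum.inr c : Bp k L k) u :=
  onY_map (Algebra.ofId k K) (Sum.inr c : Bp k L k) u

/-- multiplication of a coordinate by a root of unity -/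
theorem onY_mul {i : Fin m} {ζ : K} (hζ : ζ ^ F.M i = 1) {s : Bp k L K}
    {u : Fin m → Option K} (h : OnY F s u) :
    OnY F s (Function.update u i ((u i).map fun w => ζ * w)) := by
  have h1 : ∀ j, snd (Function.update u i ((u i).map fun w => ζ * w) j) = snd (u j) := by
    intro j
    by_cases hj : j = i
    · subst hj
      rw [Function.update_self]
      cases u j with
      | none => rfl
      | some w => rw [Option.map_some, snd_some, snd_some]
    · rw [Function.update_of_ne hj]
  have h2 : ∀ j, fst (Function.update u i ((u i).map fun w => ζ * w) j) ^ F.M j =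
      fst (u j) ^ F.M j := by
    intro j
    by_cases hj : j = i
    · subst hj
      rw [Function.update_self]
      cases u j with
      | none => rfl
      | some w =>
        rw [Option.map_some, fst_some, fst_some, mul_pow, hζ, one_mul]
    · rw [Function.update_of_ne hj]
  unfold OnY at h ⊢
  simp only [h1, h2]
  exact h

variable [IsAlgClosed k] [CharZero k]

theorem zpow_S {l : K} (hl : l ≠ 0) (c : Place k L) :
    l ^ F.S c = ∏ i, l ^ F.E i c := by
  unfold Fam.S
  rw [Finsupp.finsetSum_apply]
  have key : ∀ t : Finset (Fin m), l ^ ∑ i ∈ t, F.E i c = ∏ i ∈ t, l ^ F.E i c := by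
    intro t
    induction t using Finset.induction_on with
    | empty => simp
    | insert a t ha ih => rw [Finset.sum_insert ha, Finset.prod_insert ha, zpow_add₀ hl, ih]
  exact key _

/-- The values of a point of `Y` lie on `Y`. -/
theorem onY_vlo_ovr [HasRes k K] (hL : IsCurve k L) (hF : F.Adm) {v : Place k K}
    {s : Bp k L K} {c : Place k L} (hc : Ovr v s c) {u : Fin m → Option K} (h : OnY F s u) :
    OnY F (Sum.inr c : Bp k L k) (fun i => vlo v (u i)) := by
  obtain ⟨l, hl, h1⟩ := exists_mulc hL hc
  choose t ht h3 h4 using fun i => exists_mul v (u i)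
  unfold OnY at h ⊢
  have hLv : v.At (∏ i, (l ^ F.E i c * t i ^ F.M i) *
      (sv (F.E i) (F.B i) s * snd (u i) ^ F.M i - sv (F.E i) (F.C i) s * fst (u i) ^ F.M i))
      (∏ i, (sv (F.E i) (F.B i) (Sum.inr c : Bp k L k) * snd (vlo v (u i)) ^ F.M i -
        sv (F.E i) (F.C i) (Sum.inr c : Bp k L k) * fst (vlo v (u i)) ^ F.M i)) := by
    apply Place.At.prod
    intro i _
    have h5 := ((h1 (F.E i) (F.B i) (hF.secB i)).mul ((h4 i).pow (F.M i))).sub
      ((h1 (F.E i) (F.C i) (hF.secC i)).mul ((h3 i).pow (F.M i)))
    convert h5 using 1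
    rw [mul_pow, mul_pow]
    ring
  have hR : v.At (l ^ F.S c * sv F.S F.A s * ∏ i, (t i * snd (u i)) ^ F.M i)
      (sv F.S F.A (Sum.inr c : Bp k L k) * ∏ i, snd (vlo v (u i)) ^ F.M i) := by
    refine (h1 F.S F.A hF.secA).mul ?_
    apply Place.At.prod
    intro i _
    exact (h4 i).pow (F.M i)
  have he : ∏ i, (l ^ F.E i c * t i ^ F.M i) *
      (sv (F.E i) (F.B i) s * snd (u i) ^ F.M i - sv (F.E i) (F.C i) s * fst (u i) ^ F.M i) =
      l ^ F.S c * sv F.S F.A s * ∏ i, (t i * snd (u i)) ^ F.M i := by
    rw [Finset.prod_mul_distrib, h, Finset.prod_mul_distrib, ← zpow_S hl]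
    simp only [mul_pow]
    rw [Finset.prod_mul_distrib]
    ring
  rw [he] at hLv
  exact hLv.unique hR

theorem onY_vlo [hL : Fact (IsCurve k L)] [HasRes k K] [HasBelow k K] (hF : F.Adm)
    (v : Place k K) {s : Bp k L K} {u : Fin m → Option K} (h : OnY F s u) :
    OnY F (Sum.inr (vb v s) : Bp k L k) (fun i => vlo v (u i)) :=
  onY_vlo_ovr hL.out hF (ovr_vb v s) h

/-- an interior point lies on `Y` -/
theorem Int.onY_some {s : Bp k L K} {w : Fin m → K} (h : Int F s w) :
    OnY F s (fun i => some (w i)) := (HGFC.onY_some h.base w).2 h.onY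

end hyp

end Pool.Agent.HGFC
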