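import Pool.Agent.HGFC.KExtA

/-!
# Project HGFC, block K: descent of the relation for a divisor

`cf_ext`: `∑_V ord_V(φ f) G(v(V)) = n ∑_v ord_v(f) G(v)`, where `v(V)` is the place below `V` and `n` is the
number from `exists_ramif`. Every place `V` of `K'` is above exactly one place of `K` (`HasBelow`,
`hasBelow_of_isCurve`); the support of the divisor of `φ f` is contained in the set of the places above the
support of the divisor of `f` (for a place `v` with `ord_v f = 0` the element `f` is a unit at `v`, so `φ f` is a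
unit above). In the conclusion one divides by `n ≠ 0` (`Module k W`, characteristic zero).
-/


set_option autoImplicit false
set_option linter.unusedSectionVars false

noncomputable section

namespace Pool.Agent.HGFC

open Polynomial Pool.Agent.ZCyc Pool.Agent.Dess Pool.Agent.GT Pool.Agent.TInc Pool.Agent.HGF
open scoped Classical

variable {k : Type} [Field k] [IsAlgClosed k] [CharZero k] {W : Type} [AddCommGroup W] [Module k W]

/-- descent of the relation for the divisor of a function -/
theorem cf_ext {K K' : Type} [Field K] [Algebra k K] [Field K'] [Algebra k K']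
    (hK : IsCurve k K) (hK' : IsCurve k K') (φ : K →ₐ[k] K') {G : Place k K → W}
    {G' : Place k K' → W}
    (h : ∀ (V : Place k K') (v : Place k K), V.ring.comap (φ : K →+* K') = v.ring → G' V = G v)
    {f : K} (hf : f ≠ 0) (hG : ((TInc.dv hK' (φ f)).sum fun V a => a • G' V) = 0) :
    ((TInc.dv hK f).sum fun v a => a • G v) = 0 := by
  obtain ⟨n, hn, hT⟩ := exists_ramif hK hK' φ
  choose T hT1 hT2 using hT
  have hφf : φ f ≠ 0 := fun h0 => hf ((map_eq_zero φ).1 h0)
  have hsub : (TInc.dv hK' (φ f)).support ⊆ (TInc.dv hK f).support.biUnion T := by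
    intro V hV
    obtain ⟨w, hw⟩ := (hasBelow_of_isCurve hK').below hK V φ
    rw [Finset.mem_biUnion]
    refine ⟨w, ?_, (hT1 w V).2 hw⟩
    rw [Finsupp.mem_support_iff, TInc.dv_apply] at hV ⊢
    intro h0
    apply hV
    rw [ord_eq_zero_iff hK hf, ← hw] at h0
    rw [ord_eq_zero_iff hK' hφf]
    refine ⟨h0.1, ?_⟩
    rw [← map_inv₀]
    exact h0.2
  have h1 : ((TInc.dv hK' (φ f)).sum fun V a => a • G' V) =
      ∑ V ∈ (TInc.dv hK f).support.biUnion T, ord V (φ f) • G' V := by
    exact Finsupp.sum_of_support_subset _ hsub (fun V a => a • G' V)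
      (fun V _ => zero_smul ℤ (G' V))
  have h2 : ∑ V ∈ (TInc.dv hK f).support.biUnion T, ord V (φ f) • G' V =
      n • ((TInc.dv hK f).sum fun v a => a • G v) := by
    rw [Finset.sum_biUnion, Finsupp.sum, Finset.smul_sum]
    · refine Finset.sum_congr rfl fun v _ => ?_
      have h3 : ∑ V ∈ T v, ord V (φ f) • G' V = ∑ V ∈ T v, ord V (φ f) • G v :=
        Finset.sum_congr rfl fun V hV => by rw [h V v ((hT1 v V).1 hV)]
      rw [h3, ← Finset.sum_smul, hT2 v f hf, TInc.dv_apply, mul_smul, natCast_zsmul]
    · intro v _ v' _ hne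
      rw [Function.onFun, Finset.disjoint_left]
      intro V hV hV'
      exact hne (Place.ext (((hT1 v V).1 hV).symm.trans ((hT1 v' V).1 hV')))
  rw [h1, h2, ← Nat.cast_smul_eq_nsmul k] at hG
  rcases smul_eq_zero.1 hG with h3 | h3
  · exact absurd (Nat.cast_eq_zero.1 h3) hn.ne'
  · exact h3

end Pool.Agent.HGFC
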