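import Pool.Agent.HGFC.Val
import Pool.Agent.TInc.Riem

/-!
# Project HGFC, block K: finite extensions of the function field of a curve

`exists_ramif`: let `φ : K → K'` be an embedding of function fields of curves. Then `∑_V ord_V(φ f)
= [K' : K] ord_v(f)`, where `V` runs through the places above `v`. **Proof.** For every place `V`
above `v` let `e(V)` be the ramification index: `ord_V(φ f) = e(V) ord_v(f)` for all `f ≠ 0` (take
a uniformizer `π` at `v`, `e(V) = ord_V(φ π)`; a unit at `v` is a unit at `V`). The places above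
`v` are finitely many: zeros of `φ π`. Let `h ∈ K` be a function with a pole at `v` and no other
pole (Riemann's inequality `TInc.exists_genus` for the divisor `n v`, `n` large). Then by
`TInc.deg_poles'` (or `deg_zeros'` for `h⁻¹`) `-ord_v(h) = [K : k(h)]` and `∑_(V above v) -ord_V(φ
h) = [K' : k(φ h)] = [K' : K] [K : k(h)]`, so `∑_(V above v) e(V) = [K' : K]` (the poles of `φ h`
are the places above `v`: every place of `K'` is above a place of `K`, `hasBelow_of_isCurve`).
-/

set_option autoImplicit false
set_option linter.unusedSectionVars false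

noncomputable section

namespace Pool.Agent.HGFC

open Polynomial Pool.Agent.ZCyc Pool.Agent.Dess Pool.Agent.GT Pool.Agent.TInc Pool.Agent.HGF
open scoped Classical

variable {k : Type} [Field k] [IsAlgClosed k] [CharZero k] {W : Type} [AddCommGroup W] [Module k W]

/-- the degree `[K' : K]` -/
private def dg_KExtA {K K' : Type} [Field K] [Algebra k K] [Field K'] [Algebra k K']
    (φ : K →ₐ[k] K') : ℕ :=
  letI : Algebra K K' := (φ : K →+* K').toAlgebra
  Module.finrank K K'

omit [IsAlgClosed k] [CharZero k] in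
/-- the tower `k(h) → K → K'` -/
private theorem tower_KExtA {K K' : Type} [Field K] [Algebra k K] [Field K'] [Algebra k K']
    (φ : K →ₐ[k] K') (h : K) : Module.finrank (IntermediateField.adjoin k {φ h}) K' =
      Module.finrank (IntermediateField.adjoin k {h}) K * dg_KExtA φ := by
  let _ : Algebra K K' := (φ : K →+* K').toAlgebra
  have h1 := Module.finrank_mul_finrank (IntermediateField.adjoin k {h}) K K'
  have h2 : IntermediateField.adjoin k {φ h} = (IntermediateField.adjoin k {h}).map φ := by
    rw [IntermediateField.adjoin_map, Set.image_singleton]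
  have h3 : Module.finrank (IntermediateField.adjoin k {h}) K' =
      Module.finrank ((IntermediateField.adjoin k {h}).map φ) K' :=
    Algebra.finrank_eq_of_equiv_equiv
      ((IntermediateField.adjoin k {h}).equivMap φ).toRingEquiv (RingEquiv.refl K')
      (by ext x; rfl)
  rw [h2, ← h3, ← h1]
  rfl

/-- a function with a pole at one place only -/
private theorem pole_KExtA {K : Type} [Field K] [Algebra k K] (hK : IsCurve k K)
    (v : Place k K) : ∃ h : K, Transcendental k h ∧ ∀ w : Place k K, h ∉ w.ring ↔ w = v := by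
  obtain ⟨g, hg⟩ := exists_genus hK
  obtain ⟨hfd, hdim⟩ := hg (Finsupp.single v ((g : ℤ) + 1))
  have hdeg : TInc.deg (Finsupp.single v ((g : ℤ) + 1)) = g + 1 := by
    unfold TInc.deg
    rw [Finsupp.sum_single_index rfl]
  rw [hdeg] at hdim
  have h2 : 2 ≤ Module.finrank k (LD hK (Finsupp.single v ((g : ℤ) + 1))) := by omega
  obtain ⟨h, hh, hne⟩ : ∃ h ∈ LD hK (Finsupp.single v ((g : ℤ) + 1)),
      ∀ c : k, h ≠ algebraMap k K c := by
    by_contra hcon
    push Not at hcon
    have hle : LD hK (Finsupp.single v ((g : ℤ) + 1)) ≤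
        LinearMap.range (Algebra.linearMap k K) := by
      intro f hf
      obtain ⟨c, hc⟩ := hcon f hf
      exact ⟨c, hc.symm⟩
    have h3 := Submodule.finrank_mono hle
    have h4 := LinearMap.finrank_range_le (Algebra.linearMap k K)
    rw [Module.finrank_self] at h4
    omega
  have hh0 : h ≠ 0 := by
    intro h0
    exact hne 0 (by rw [h0, map_zero])
  have hreg : ∀ w : Place k K, w ≠ v → h ∈ w.ring := by
    intro w hwv
    have h3 : InL (Finsupp.single v ((g : ℤ) + 1)) h := hh
    have h4 := h3 hh0 w
    rw [Finsupp.single_apply, if_neg (Ne.symm hwv), add_zero] at h4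
    exact (mem_iff_ord hK hh0).2 h4
  refine ⟨h, transc_of_ne hK hne, fun w => ⟨fun hw => ?_, ?_⟩⟩
  · by_contra hwv
    exact hw (hreg w hwv)
  · rintro rfl hv
    obtain ⟨c, hc⟩ := const_of_regular hK (f := h) fun u => by
      by_cases huv : u = w
      · rw [huv]
        exact hv
      · exact hreg u huv
    exact hne c hc

/-- the degree formula: the sum of the orders above a place (`n = [K' : K]`) -/
theorem exists_ramif {K K' : Type} [Field K] [Algebra k K] [Field K'] [Algebra k K']
    (hK : IsCurve k K) (hK' : IsCurve k K') (φ : K →ₐ[k] K') : ∃ n : ℕ, 0 < n ∧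
      ∀ v : Place k K, ∃ T : Finset (Place k K'),
        (∀ V, V ∈ T ↔ V.ring.comap (φ : K →+* K') = v.ring) ∧
        ∀ f : K, f ≠ 0 → ∑ V ∈ T, ord V (φ f) = n * ord v f := by
  obtain ⟨t, ht, -⟩ := id hK
  have tr : ∀ {h : K}, Transcendental k h → Transcendental k (φ h) := fun {h} hh h' =>
    hh ((isAlgebraic_algHom_iff φ (φ : K →+* K').injective).1 h')
  have hφ0 : ∀ {f : K}, f ≠ 0 → φ f ≠ 0 := fun {f} hf h => hf ((map_eq_zero φ).1 h)
  refine ⟨dg_KExtA φ, ?_, fun v => ?_⟩
  · have h1 := tower_KExtA φ t
    have h2 := fin_adjoin hK' (tr ht)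
    have h3 : 0 < Module.finrank (IntermediateField.adjoin k {φ t}) K' := Module.finrank_pos
    rw [h1] at h3
    exact Nat.pos_of_mul_pos_left h3
  · obtain ⟨π, hπ⟩ := exists_unif hK v
    have hmem : ∀ V : Place k K', V.ring.comap (φ : K →+* K') = v.ring → ∀ f : K,
        f ∈ v.ring ↔ φ f ∈ V.ring := by
      intro V hV f
      rw [← hV]
      exact Iff.rfl
    have key : ∀ V : Place k K', V.ring.comap (φ : K →+* K') = v.ring → ∀ f : K, f ≠ 0 →
        ord V (φ f) = ord v f * ord V (φ π) := by
      intro V hV f hf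
      obtain ⟨h1, h2⟩ := ord_unit hK hπ hf
      have hz : f / π ^ ord v f ≠ 0 := div_ne_zero hf (zpow_ne_zero _ hπ.1)
      have h3 : ord V (φ (f / π ^ ord v f)) = 0 := by
        rw [ord_eq_zero_iff hK' (hφ0 hz)]
        refine ⟨(hmem V hV _).1 h1, ?_⟩
        rw [← map_inv₀]
        exact (hmem V hV _).1 h2
      have h4 : φ f = φ (f / π ^ ord v f) * (φ π) ^ ord v f := by
        rw [← map_zpow₀, ← _root_.map_mul, div_mul_cancel₀ _ (zpow_ne_zero _ hπ.1)]
      conv_lhs => rw [h4]
      rw [ord_mul hK' V (hφ0 hz) (zpow_ne_zero _ (hφ0 hπ.1)), h3, zero_add, ord_zpow hK']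
    have hpos : ∀ V : Place k K', V.ring.comap (φ : K →+* K') = v.ring →
        ord V (φ π) ≠ 0 := by
      intro V hV h0
      rw [ord_eq_zero_iff hK' (hφ0 hπ.1), ← map_inv₀] at h0
      have h1 := (Place.vanishes_iff_or v π).1 hπ.2.1
      rcases h1 with h1 | h1
      · exact hπ.1 h1
      · exact h1 ((hmem V hV _).2 h0.2)
    set T : Finset (Place k K') := (finite_ord hK' (φ π)).toFinset.filter
      (fun V => V.ring.comap (φ : K →+* K') = v.ring) with hTdef
    have hT : ∀ V, V ∈ T ↔ V.ring.comap (φ : K →+* K') = v.ring := by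
      intro V
      rw [hTdef, Finset.mem_filter, Set.Finite.mem_toFinset]
      exact ⟨fun h => h.2, fun h => ⟨hpos V h, h⟩⟩
    refine ⟨T, hT, ?_⟩
    have hsum : ∀ f : K, f ≠ 0 →
        ∑ V ∈ T, ord V (φ f) = ord v f * ∑ V ∈ T, ord V (φ π) := by
      intro f hf
      rw [Finset.mul_sum]
      exact Finset.sum_congr rfl fun V hV => key V ((hT V).1 hV) f hf
    obtain ⟨h, hh, hp⟩ := pole_KExtA hK v
    have hh0 : h ≠ 0 := by
      rintro rfl
      exact hh isAlgebraic_zero
    have h1 := deg_poles' hK hh {v} (fun w => by rw [Finset.mem_singleton, hp])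
    have h2 := deg_poles' hK' (tr hh) T (fun V => by
      rw [hT]
      obtain ⟨w, hw⟩ := (hasBelow_of_isCurve hK').below hK V φ
      have hmw : h ∈ w.ring ↔ φ h ∈ V.ring := by
        rw [← hw]
        exact Iff.rfl
      rw [← hmw, hp]
      constructor
      · intro hV
        exact Place.ext (hw.symm.trans hV)
      · intro hV
        rw [hw, hV])
    rw [Finset.sum_singleton] at h1
    rw [tower_KExtA, Finset.sum_neg_distrib, hsum h hh0, Nat.cast_mul, ← h1] at h2
    have hlt : ord v h ≠ 0 := by
      intro h0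
      exact (hp v).2 rfl ((mem_iff_ord hK hh0).2 h0.ge)
    have hE : ∑ V ∈ T, ord V (φ π) = (dg_KExtA φ : ℤ) := by
      apply mul_left_cancel₀ hlt
      linarith
    intro f hf
    rw [hsum f hf, hE, mul_comm]

end Pool.Agent.HGFC
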